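import Mathlib

/-!
# MP_feb088_an: coordinatewise expansion fails for circulant matrices of large norm

Let `N = 2 m + 1` and let `H` be the circulant matrix with first row `0, 1, …, 1, -1, …, -1` (`m` times
`1`, `m` times `-1`). For every nonzero real `x` some coordinate of `H x` is at most the corresponding
nonzero coordinate of `x` in absolute value, and for `x = e_0 + e_m` all coordinates are equal in
absolute value: so the number `ρ(H)` of the problem is `1`. But the largest singular value of `H` is at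
least `cot (π / (2 N)) ≥ N / π`.

Proof: with `G i = (H x) i + x i` one has `(H x) i - x i = - G (i + m + 1)`, so
`((H x) i)² - (x i)² = - G i * G (i + m + 1)`. If all these numbers were positive, the signs of the
numbers `G` would alternate along a cycle of odd length.
-/

set_option autoImplicit false

namespace Pool.Agent.Y292.FC

open Finset Real

/-- the vector `H x` for the circulant matrix `H` with first row `h` -/
noncomputable def act {n : ℕ} (h x : Fin (n + 1) → ℝ) (i : Fin (n + 1)) : ℝ := ∑ j, h (j - i) * x j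

/-- the first row `0, 1, …, 1, -1, …, -1` of length `2 m + 1` -/
noncomputable def row (m : ℕ) (d : Fin (2 * m + 1)) : ℝ :=
  if d.val = 0 then 0 else if d.val ≤ m then 1 else -1

lemma act_shift {n : ℕ} (h x : Fin (n + 1) → ℝ) (i : Fin (n + 1)) :
    act h x i = ∑ d, h d * x (i + d) := by
  unfold act
  rw [← Equiv.sum_comp (Equiv.addLeft i)]
  refine sum_congr rfl fun d _ => ?_
  simp

/-- the row with `1` at the place `0` -/
noncomputable def rowG (m : ℕ) (d : Fin (2 * m + 1)) : ℝ := if d.val ≤ m then 1 else -1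

lemma rowG_eq (m : ℕ) (d : Fin (2 * m + 1)) : rowG m d = row m d + if d = 0 then 1 else 0 := by
  unfold rowG row
  by_cases h0 : d = 0
  · subst h0; simp
  · have h1 : d.val ≠ 0 := fun h => h0 (Fin.ext (by simpa using h))
    simp [h0, h1]

/-- the shift `m + 1` -/
def sh (m : ℕ) : Fin (2 * m + 1) := Fin.ofNat (2 * m + 1) (m + 1)

lemma sh_two (m : ℕ) (hm : 1 ≤ m) : sh m + sh m = 1 := by
  apply Fin.ext
  simp only [sh, Fin.val_add, Fin.ofNat]
  rw [Nat.mod_eq_of_lt (by omega : m + 1 < 2 * m + 1)]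
  have : ((1 : Fin (2 * m + 1)) : ℕ) = 1 := by
    rw [Fin.val_one']
    exact Nat.mod_eq_of_lt (by omega)
  rw [this, show m + 1 + (m + 1) = (2 * m + 1) + 1 by ring, Nat.add_mod_left]
  exact Nat.mod_eq_of_lt (by omega)

lemma rowG_sub (m : ℕ) (hm : 1 ≤ m) (d : Fin (2 * m + 1)) :
    rowG m (d - sh m) = -(row m d - if d = 0 then 1 else 0) := by
  have hd := d.isLt
  have hs : (sh m).val = m + 1 := by
    simp only [sh, Fin.ofNat]
    exact Nat.mod_eq_of_lt (by omega)
  have hv : (d - sh m).val = (2 * m + 1 - (m + 1) + d.val) % (2 * m + 1) := by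
    rw [Fin.sub_def]
    simp only [hs]
  unfold rowG row
  rcases Nat.eq_zero_or_pos d.val with h0 | h0
  · have hd0 : d = 0 := Fin.ext (by simpa using h0)
    have e : (d - sh m).val = m := by
      rw [hv, h0, Nat.mod_eq_of_lt (by omega)]; omega
    rw [e, if_pos le_rfl, if_pos h0, if_pos hd0]
    norm_num
  · have hd0 : d ≠ 0 := fun h => by rw [h] at h0; simp at h0
    rw [if_neg (by omega : ¬ d.val = 0), if_neg hd0]
    by_cases h1 : d.val ≤ m
    · have e : (d - sh m).val = m + d.val := by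
        rw [hv, Nat.mod_eq_of_lt (by omega)]; omega
      rw [e, if_neg (by omega), if_pos h1]
      norm_num
    · have e : (d - sh m).val = d.val - (m + 1) := by
        rw [hv, show 2 * m + 1 - (m + 1) + d.val = (2 * m + 1) + (d.val - (m + 1)) by omega,
          Nat.add_mod_left, Nat.mod_eq_of_lt (by omega)]
      rw [e, if_pos (by omega), if_neg h1]
      norm_num

/-- `G i = (H x) i + x i` -/
lemma G_eq (m : ℕ) (x : Fin (2 * m + 1) → ℝ) (i : Fin (2 * m + 1)) :
    act (rowG m) x i = act (row m) x i + x i := by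
  rw [act_shift, act_shift]
  simp_rw [rowG_eq, add_mul, sum_add_distrib]
  congr 1
  simp

/-- `(H x) i - x i = - G (i + m + 1)` -/
lemma K_eq (m : ℕ) (hm : 1 ≤ m) (x : Fin (2 * m + 1) → ℝ) (i : Fin (2 * m + 1)) :
    act (row m) x i - x i = -act (rowG m) x (i + sh m) := by
  have e : act (rowG m) x (i + sh m) = ∑ d, rowG m (d - sh m) * x (i + d) := by
    rw [act_shift, ← Equiv.sum_comp (Equiv.subRight (sh m))]
    refine sum_congr rfl fun d _ => ?_
    simp only [Equiv.subRight_apply]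
    congr 2
    abel
  rw [e, act_shift]
  simp_rw [rowG_sub m hm]
  rw [← sum_neg_distrib]
  have e2 : ∀ d : Fin (2 * m + 1), -(-(row m d - if d = 0 then 1 else 0) * x (i + d)) =
      row m d * x (i + d) - (if d = 0 then 1 else 0) * x (i + d) := fun d => by ring
  simp_rw [e2]
  rw [sum_sub_distrib]
  congr 1
  simp

theorem upper (m : ℕ) (hm : 1 ≤ m) (x : Fin (2 * m + 1) → ℝ) (hx : x ≠ 0) :
    ∃ i, x i ≠ 0 ∧ |act (row m) x i| ≤ |x i| := by
  by_contra hcon
  push Not at hcon
  set G : Fin (2 * m + 1) → ℝ := act (rowG m) x with hG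
  have hsum : ∀ i, 2 * x i = G i + G (i + sh m) := fun i => by
    have h1 := G_eq m x i
    have h2 := K_eq m hm x i
    simp only [← hG] at h1 h2
    linarith
  have hprod : ∀ i, act (row m) x i ^ 2 - x i ^ 2 = -(G i * G (i + sh m)) := fun i => by
    have h1 := G_eq m x i
    have h2 := K_eq m hm x i
    simp only [← hG] at h1 h2
    have h3 : act (row m) x i ^ 2 - x i ^ 2 =
        (act (row m) x i + x i) * (act (row m) x i - x i) := by ring
    rw [h3, h2, ← h1]
    ring
  have hneg : ∀ i, x i ≠ 0 → G i * G (i + sh m) < 0 := fun i hi => by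
    have h1 := hcon i hi
    have h2 : x i ^ 2 < act (row m) x i ^ 2 := sq_lt_sq.2 h1
    have h3 := hprod i
    linarith
  have hz : ∀ i, G i = 0 → G (i + sh m) = 0 := fun i hi => by
    by_cases h : x i = 0
    · have := hsum i
      rw [h, hi] at this
      linarith
    · have := hneg i h
      rw [hi, zero_mul] at this
      exact absurd this (lt_irrefl _)
  have hz1 : ∀ i, G i = 0 → G (i + 1) = 0 := fun i hi => by
    have := hz _ (hz i hi)
    rwa [add_assoc, sh_two m hm] at this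
  have hnz : ∀ i, G i ≠ 0 := by
    intro i hi
    apply hx
    have hk : ∀ k : ℕ, G (i + Fin.ofNat (2 * m + 1) k) = 0 := by
      intro k
      induction k with
      | zero =>
        have : Fin.ofNat (2 * m + 1) 0 = 0 := rfl
        rw [this, add_zero]
        exact hi
      | succ k ih =>
        have := hz1 _ ih
        have e : Fin.ofNat (2 * m + 1) (k + 1) = Fin.ofNat (2 * m + 1) k + 1 := by
          apply Fin.ext
          simp [Fin.ofNat, Fin.val_add, Nat.add_mod]
        rwa [add_assoc, ← e] at this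
    have hall : ∀ l, G l = 0 := fun l => by
      have := hk (l - i).val
      have e : Fin.ofNat (2 * m + 1) (l - i).val = l - i := by
        apply Fin.ext
        simp only [Fin.ofNat]
        exact Nat.mod_eq_of_lt (l - i).isLt
      rwa [e, add_sub_cancel] at this
    funext l
    have := hsum l
    rw [hall, hall] at this
    simp only [Pi.zero_apply]
    linarith
  have hneg2 : ∀ i, G i * G (i + sh m) < 0 := fun i => by
    by_cases h : x i = 0
    · have h1 := hsum i
      rw [h] at h1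
      have h2 : G (i + sh m) = -G i := by linarith
      rw [h2]
      have := mul_self_pos.2 (hnz i)
      linarith
    · exact hneg i h
  have e1 : ∏ i, (G i * G (i + sh m)) = (∏ i, G i) ^ 2 := by
    rw [prod_mul_distrib, sq]
    congr 1
    exact Equiv.prod_comp (Equiv.addRight (sh m)) G
  have e2 : ∏ i, (G i * G (i + sh m)) < 0 := by
    have h1 : ∏ i, (G i * G (i + sh m)) = -∏ i, (-(G i * G (i + sh m))) := by
      rw [prod_neg, card_univ, Fintype.card_fin]
      rw [pow_succ, pow_mul]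
      norm_num
    rw [h1]
    have : 0 < ∏ i, (-(G i * G (i + sh m))) := prod_pos fun i _ => by
      have := hneg2 i
      linarith
    linarith
  rw [e1] at e2
  exact absurd e2 (not_lt.2 (sq_nonneg _))

/-- the vector `e_0 + e_m` -/
noncomputable def vec (m : ℕ) (i : Fin (2 * m + 1)) : ℝ := if i.val = 0 ∨ i.val = m then 1 else 0

theorem equal (m : ℕ) (hm : 1 ≤ m) (i : Fin (2 * m + 1)) :
    |act (row m) (vec m) i| = |vec m i| := by
  have hi := i.isLt
  set a : Fin (2 * m + 1) := ⟨0, by omega⟩ with ha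
  set b : Fin (2 * m + 1) := ⟨m, by omega⟩ with hb
  have hab : a ≠ b := fun h => by
    have := congrArg Fin.val h
    simp only [ha, hb] at this
    omega
  have hv : ∀ j, vec m j = (if j = a then 1 else 0) + (if j = b then 1 else 0) := fun j => by
    unfold vec
    by_cases h1 : j = a
    · have h2 : ¬ j = b := h1 ▸ hab
      rw [if_pos (Or.inl (by rw [h1])), if_pos h1, if_neg h2, add_zero]
    · by_cases h2 : j = b
      · rw [if_pos (Or.inr (by rw [h2])), if_neg h1, if_pos h2, zero_add]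
      · have h3 : j.val ≠ 0 := fun h => h1 (Fin.ext h)
        have h4 : j.val ≠ m := fun h => h2 (Fin.ext h)
        simp [h1, h2, h3, h4]
  have e : act (row m) (vec m) i = row m (a - i) + row m (b - i) := by
    unfold act
    simp_rw [hv, mul_add, sum_add_distrib]
    simp
  have va : (a - i).val = (2 * m + 1 - i.val) % (2 * m + 1) := by
    rw [Fin.sub_def]; simp [ha]
  have vb : (b - i).val = (2 * m + 1 - i.val + m) % (2 * m + 1) := by
    rw [Fin.sub_def]
  rw [e]
  unfold row vec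
  rw [va, vb]
  rcases Nat.lt_trichotomy i.val 0 with h | h | h
  · omega
  · rw [h, Nat.sub_zero, Nat.mod_self, Nat.add_mod_left, Nat.mod_eq_of_lt (by omega : m < 2 * m + 1)]
    simp [show m ≠ 0 by omega]
  · rw [Nat.mod_eq_of_lt (by omega : 2 * m + 1 - i.val < 2 * m + 1)]
    rcases Nat.lt_trichotomy i.val m with h1 | h1 | h1
    · rw [show 2 * m + 1 - i.val + m = (2 * m + 1) + (m - i.val) by omega, Nat.add_mod_left,
        Nat.mod_eq_of_lt (by omega : m - i.val < 2 * m + 1)]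
      simp [show ¬ 2 * m + 1 - i.val = 0 by omega, show ¬ 2 * m + 1 - i.val ≤ m by omega,
        show ¬ m - i.val = 0 by omega, show i.val ≠ 0 by omega, show i.val ≠ m by omega]
    · rw [h1, show 2 * m + 1 - m + m = (2 * m + 1) by omega, Nat.mod_self]
      simp [show ¬ 2 * m + 1 - m = 0 by omega, show ¬ 2 * m + 1 - m ≤ m by omega]
    · rw [Nat.mod_eq_of_lt (by omega : 2 * m + 1 - i.val + m < 2 * m + 1)]
      simp [show ¬ 2 * m + 1 - i.val = 0 by omega, show 2 * m + 1 - i.val ≤ m by omega,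
        show ¬ 2 * m + 1 - i.val + m ≤ m by omega,
        show i.val ≠ 0 by omega, show i.val ≠ m by omega]

/-! ### the largest singular value -/

lemma cos_mod (N k : ℕ) (hN : 0 < N) :
    Real.cos (2 * π / N * ((k % N : ℕ) : ℝ)) = Real.cos (2 * π / N * k) := by
  have hN' : (N : ℝ) ≠ 0 := by exact_mod_cast hN.ne'
  have e : (k : ℝ) = ((k % N : ℕ) : ℝ) + N * ((k / N : ℕ) : ℝ) := by
    exact_mod_cast (Nat.mod_add_div k N).symm
  have e2 : 2 * π / N * (k : ℝ) = 2 * π / N * ((k % N : ℕ) : ℝ) + ((k / N : ℕ) : ℝ) * (2 * π) := by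
    conv_lhs => rw [e]
    field_simp
  rw [e2, Real.cos_add_nat_mul_two_pi]

lemma sin_mod (N k : ℕ) (hN : 0 < N) :
    Real.sin (2 * π / N * ((k % N : ℕ) : ℝ)) = Real.sin (2 * π / N * k) := by
  have hN' : (N : ℝ) ≠ 0 := by exact_mod_cast hN.ne'
  have e : (k : ℝ) = ((k % N : ℕ) : ℝ) + N * ((k / N : ℕ) : ℝ) := by
    exact_mod_cast (Nat.mod_add_div k N).symm
  have e2 : 2 * π / N * (k : ℝ) = 2 * π / N * ((k % N : ℕ) : ℝ) + ((k / N : ℕ) : ℝ) * (2 * π) := by
    conv_lhs => rw [e]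
    field_simp
  rw [e2, Real.sin_add_nat_mul_two_pi]

/-- the eigenvalue -/
noncomputable def eig (m : ℕ) : ℝ :=
  ∑ d : Fin (2 * m + 1), row m d * Real.sin (2 * π / ((2 * m + 1 : ℕ) : ℝ) * (d.val : ℝ))

noncomputable def eigc (m : ℕ) : ℝ :=
  ∑ d : Fin (2 * m + 1), row m d * Real.cos (2 * π / ((2 * m + 1 : ℕ) : ℝ) * (d.val : ℝ))

noncomputable def vc (m : ℕ) (i : Fin (2 * m + 1)) : ℝ :=
  Real.cos (2 * π / ((2 * m + 1 : ℕ) : ℝ) * (i.val : ℝ))

noncomputable def vs (m : ℕ) (i : Fin (2 * m + 1)) : ℝ :=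
  Real.sin (2 * π / ((2 * m + 1 : ℕ) : ℝ) * (i.val : ℝ))

lemma vc_add (m : ℕ) (i d : Fin (2 * m + 1)) : vc m (i + d) = vc m i * vc m d - vs m i * vs m d := by
  unfold vc vs
  have e : ((i.val + d.val : ℕ) : ℝ) = i.val + d.val := Nat.cast_add _ _
  rw [Fin.val_add, cos_mod _ _ (by omega), e, mul_add, Real.cos_add]

lemma vs_add (m : ℕ) (i d : Fin (2 * m + 1)) : vs m (i + d) = vs m i * vc m d + vc m i * vs m d := by
  unfold vc vs
  have e : ((i.val + d.val : ℕ) : ℝ) = i.val + d.val := Nat.cast_add _ _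
  rw [Fin.val_add, sin_mod _ _ (by omega), e, mul_add, Real.sin_add]

lemma act_vc (m : ℕ) (i : Fin (2 * m + 1)) :
    act (row m) (vc m) i = vc m i * eigc m - vs m i * eig m := by
  rw [act_shift]
  unfold eig eigc
  rw [mul_sum, mul_sum, ← sum_sub_distrib]
  refine sum_congr rfl fun d _ => ?_
  rw [vc_add]
  change row m d * _ = vc m i * (row m d * vc m d) - vs m i * (row m d * vs m d)
  ring

lemma act_vs (m : ℕ) (i : Fin (2 * m + 1)) :
    act (row m) (vs m) i = vs m i * eigc m + vc m i * eig m := by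
  rw [act_shift]
  unfold eig eigc
  rw [mul_sum, mul_sum, ← sum_add_distrib]
  refine sum_congr rfl fun d _ => ?_
  rw [vs_add]
  change row m d * _ = vs m i * (row m d * vc m d) + vc m i * (row m d * vs m d)
  ring

lemma vcs (m : ℕ) (i : Fin (2 * m + 1)) : vc m i ^ 2 + vs m i ^ 2 = 1 := by
  unfold vc vs
  exact Real.cos_sq_add_sin_sq _

theorem exists_vec (m : ℕ) (hm : 1 ≤ m) : ∃ v : Fin (2 * m + 1) → ℝ, v ≠ 0 ∧
    eig m ^ 2 * ∑ i, v i ^ 2 ≤ ∑ i, act (row m) v i ^ 2 := by
  by_contra hcon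
  push Not at hcon
  have hc : vc m ≠ 0 := fun h => by
    have := congrFun h ⟨0, by omega⟩
    simp [vc] at this
  have hs : vs m ≠ 0 := fun h => by
    have h1 := congrFun h ⟨1, by omega⟩
    simp only [vs, Pi.zero_apply, Nat.cast_one, mul_one] at h1
    have hN : (3 : ℝ) ≤ ((2 * m + 1 : ℕ) : ℝ) := by
      have : 3 ≤ 2 * m + 1 := by omega
      exact_mod_cast this
    have h2 : 0 < Real.sin (2 * π / ((2 * m + 1 : ℕ) : ℝ)) := by
      apply Real.sin_pos_of_pos_of_lt_pi
      · have := Real.pi_pos; positivity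
      · rw [div_lt_iff₀ (by linarith)]
        nlinarith [Real.pi_pos]
    linarith
  have h1 := hcon _ hc
  have h2 := hcon _ hs
  have h3 : ∑ i, act (row m) (vc m) i ^ 2 + ∑ i, act (row m) (vs m) i ^ 2 =
      ∑ i : Fin (2 * m + 1), (eigc m ^ 2 + eig m ^ 2) := by
    rw [← sum_add_distrib]
    refine sum_congr rfl fun i _ => ?_
    rw [act_vc, act_vs]
    have := vcs m i
    linear_combination (eigc m ^ 2 + eig m ^ 2) * this
  have h4 : eig m ^ 2 * ∑ i, vc m i ^ 2 + eig m ^ 2 * ∑ i, vs m i ^ 2 =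
      ∑ i : Fin (2 * m + 1), eig m ^ 2 := by
    rw [← mul_add, ← sum_add_distrib, mul_sum]
    refine sum_congr rfl fun i _ => ?_
    rw [vcs, mul_one]
  have h5 : ∑ i : Fin (2 * m + 1), eig m ^ 2 ≤ ∑ i : Fin (2 * m + 1), (eigc m ^ 2 + eig m ^ 2) :=
    sum_le_sum fun i _ => by nlinarith [sq_nonneg (eigc m)]
  linarith

lemma eig_split (m : ℕ) : eig m =
    ∑ k ∈ range m, Real.sin (2 * π / ((2 * m + 1 : ℕ) : ℝ) * ((k : ℝ) + 1)) -
      ∑ k ∈ range m, Real.sin (2 * π / ((2 * m + 1 : ℕ) : ℝ) * ((k : ℝ) + m + 1)) := by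
  unfold eig row
  have e1 : ∑ d : Fin (2 * m + 1), (if d.val = 0 then (0 : ℝ) else if d.val ≤ m then 1 else -1) *
      Real.sin (2 * π / ((2 * m + 1 : ℕ) : ℝ) * (d.val : ℝ)) =
      ∑ d ∈ range (2 * m + 1), (if d = 0 then (0 : ℝ) else if d ≤ m then 1 else -1) *
      Real.sin (2 * π / ((2 * m + 1 : ℕ) : ℝ) * (d : ℝ)) :=
    Fin.sum_univ_eq_sum_range (fun d : ℕ => (if d = 0 then (0 : ℝ) else if d ≤ m then 1 else -1) *
      Real.sin (2 * π / ((2 * m + 1 : ℕ) : ℝ) * (d : ℝ))) (2 * m + 1)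
  rw [e1, sum_range_succ', show 2 * m = m + m by ring, sum_range_add]
  simp only [if_true, zero_mul, add_zero, Nat.add_eq_zero_iff, one_ne_zero, and_false, if_false]
  rw [sub_eq_add_neg, ← sum_neg_distrib]
  congr 1
  · refine sum_congr rfl fun k hk => ?_
    rw [mem_range] at hk
    rw [if_pos (by omega : k + 1 ≤ m), one_mul]
    push_cast
    ring_nf
  · refine sum_congr rfl fun k hk => ?_
    rw [if_neg (by omega : ¬ m + k + 1 ≤ m)]
    push_cast
    ring_nf

lemma tele (t a : ℝ) (m : ℕ) : 2 * Real.sin (t / 2) * ∑ k ∈ range m, Real.sin (t * ((k : ℝ) + a)) =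
    Real.cos (t * (a - 1 / 2)) - Real.cos (t * ((m : ℝ) + a - 1 / 2)) := by
  induction m with
  | zero => simp
  | succ m ih =>
    rw [sum_range_succ, mul_add, ih]
    have h : 2 * Real.sin (t / 2) * Real.sin (t * ((m : ℝ) + a)) =
        Real.cos (t * ((m : ℝ) + a - 1 / 2)) - Real.cos (t * (((m + 1 : ℕ) : ℝ) + a - 1 / 2)) := by
      have e1 : t * ((m : ℝ) + a - 1 / 2) = t * ((m : ℝ) + a) - t / 2 := by ring
      have e2 : t * (((m + 1 : ℕ) : ℝ) + a - 1 / 2) = t * ((m : ℝ) + a) + t / 2 := by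
        push_cast; ring
      rw [e1, e2, Real.cos_sub, Real.cos_add]
      ring
    rw [h]
    ring

theorem eig_eq (m : ℕ) (hm : 1 ≤ m) : eig m = Real.cot (π / (2 * (2 * (m : ℝ) + 1))) := by
  have hm0 : (0 : ℝ) < 2 * (m : ℝ) + 1 := by positivity
  set u : ℝ := π / (2 * (2 * (m : ℝ) + 1)) with hu
  set t : ℝ := 2 * π / ((2 * m + 1 : ℕ) : ℝ) with ht
  have htu : t = 4 * u := by
    rw [ht, hu]; push_cast; field_simp; ring
  have hpi : (2 * (m : ℝ) + 1) * (2 * u) = π := by
    rw [hu]; field_simp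
  have hupos : 0 < u := by rw [hu]; have := Real.pi_pos; positivity
  have hult : u < π / 2 := by
    rw [hu, div_lt_div_iff₀ (by positivity) (by norm_num)]
    have : (1 : ℝ) ≤ m := by exact_mod_cast hm
    nlinarith [Real.pi_pos]
  have h1 := tele t 1 m
  have h2 := tele t (m + 1) m
  have h3 : 2 * Real.sin (t / 2) * eig m = 2 * (1 + Real.cos (2 * u)) := by
    rw [eig_split, mul_sub]
    have e2 : ∑ k ∈ range m, Real.sin (t * ((k : ℝ) + m + 1)) =
        ∑ k ∈ range m, Real.sin (t * ((k : ℝ) + (m + 1))) :=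
      sum_congr rfl fun k _ => by rw [add_assoc]
    rw [← ht, e2, h1, h2]
    have c1 : t * (1 - 1 / 2) = 2 * u := by rw [htu]; ring
    have c2 : t * ((m : ℝ) + 1 - 1 / 2) = π := by
      rw [htu, ← hpi]; ring
    have c3 : t * ((m : ℝ) + 1 - 1 / 2) = π := c2
    have c4 : t * ((m : ℝ) + (m + 1) - 1 / 2) = 2 * π - 2 * u := by
      rw [htu]
      have : 2 * π = 2 * ((2 * (m : ℝ) + 1) * (2 * u)) := by rw [hpi]
      rw [this]; ring
    rw [c1, c2, c4, Real.cos_pi, Real.cos_two_pi_sub]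
    ring
  have h4 : t / 2 = 2 * u := by rw [htu]; ring
  rw [h4, Real.sin_two_mul, Real.cos_two_mul] at h3
  have hs : 0 < Real.sin u := Real.sin_pos_of_pos_of_lt_pi hupos (by linarith [Real.pi_pos])
  have hc : 0 < Real.cos u := Real.cos_pos_of_mem_Ioo ⟨by linarith, hult⟩
  rw [Real.cot_eq_cos_div_sin, eq_div_iff hs.ne']
  have h5 : 4 * Real.cos u * (eig m * Real.sin u) = 4 * Real.cos u * Real.cos u := by
    linear_combination h3
  exact mul_left_cancel₀ (by positivity) h5

theorem cot_lower (m : ℕ) (hm : 1 ≤ m) :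
    (2 * (m : ℝ) + 1) / π ≤ Real.cot (π / (2 * (2 * (m : ℝ) + 1))) := by
  have hm1 : (1 : ℝ) ≤ m := by exact_mod_cast hm
  have hpi := Real.pi_pos
  set u : ℝ := π / (2 * (2 * (m : ℝ) + 1)) with hu
  have hupos : 0 < u := by rw [hu]; positivity
  have hu3 : u ≤ π / 3 := by
    rw [hu]
    exact div_le_div_of_nonneg_left hpi.le (by norm_num) (by linarith)
  have hs : 0 < Real.sin u := Real.sin_pos_of_pos_of_lt_pi hupos (by linarith)
  have hsu : Real.sin u ≤ u := Real.sin_le hupos.le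
  have hc : 1 / 2 ≤ Real.cos u := by
    rw [← Real.cos_pi_div_three]
    exact Real.cos_le_cos_of_nonneg_of_le_pi hupos.le (by linarith) hu3
  have e : (2 * (m : ℝ) + 1) / π = 1 / 2 / u := by
    rw [hu]; field_simp
  rw [e, Real.cot_eq_cos_div_sin]
  exact div_le_div₀ (by linarith) hc hs hsu

/-- (1) For every `m ≥ 1` and `N = 2 m + 1`, the real circulant `N × N` matrix `H` with first row
`0, 1, …, 1, -1, …, -1` has largest singular value at least `cot (π / (2 N)) ≥ N / π`, but for every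
nonzero `x` there is a coordinate with `x i ≠ 0` and `|(H x) i| ≤ |x i|`; for `x = e_0 + e_m` all
coordinates satisfy `|(H x) i| = |x i|`, so `ρ(H) = 1`. (2) So there is no constant `γ` as in the
problem: for every `γ > 0` there is a real circulant matrix `H` with largest singular value at least
`γ` such that every nonzero real `x` has a coordinate with `|(H x) i| < |x i|`. -/
theorem main :
    (∀ m : ℕ, 1 ≤ m →
      (∃ v : Fin (2 * m + 1) → ℝ, v ≠ 0 ∧
        Real.cot (π / (2 * (2 * (m : ℝ) + 1))) ^ 2 * ∑ i, v i ^ 2 ≤ ∑ i, act (row m) v i ^ 2) ∧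
      (2 * (m : ℝ) + 1) / π ≤ Real.cot (π / (2 * (2 * (m : ℝ) + 1))) ∧
      (∀ x : Fin (2 * m + 1) → ℝ, x ≠ 0 → ∃ i, x i ≠ 0 ∧ |act (row m) x i| ≤ |x i|) ∧
      ∃ x : Fin (2 * m + 1) → ℝ, x ≠ 0 ∧ ∀ i, |act (row m) x i| = |x i|) ∧
    ∀ γ : ℝ, 0 < γ → ∃ (n : ℕ) (h : Fin (n + 1) → ℝ),
      (∃ v : Fin (n + 1) → ℝ, v ≠ 0 ∧ γ ^ 2 * ∑ i, v i ^ 2 ≤ ∑ i, act h v i ^ 2) ∧
      ∀ x : Fin (n + 1) → ℝ, x ≠ 0 → ∃ i, |act h x i| < |x i| := by
  have hfirst : ∀ m : ℕ, 1 ≤ m →
      (∃ v : Fin (2 * m + 1) → ℝ, v ≠ 0 ∧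
        Real.cot (π / (2 * (2 * (m : ℝ) + 1))) ^ 2 * ∑ i, v i ^ 2 ≤ ∑ i, act (row m) v i ^ 2) ∧
      (2 * (m : ℝ) + 1) / π ≤ Real.cot (π / (2 * (2 * (m : ℝ) + 1))) ∧
      (∀ x : Fin (2 * m + 1) → ℝ, x ≠ 0 → ∃ i, x i ≠ 0 ∧ |act (row m) x i| ≤ |x i|) ∧
      ∃ x : Fin (2 * m + 1) → ℝ, x ≠ 0 ∧ ∀ i, |act (row m) x i| = |x i| := by
    intro m hm
    refine ⟨?_, cot_lower m hm, fun x hx => upper m hm x hx, vec m, ?_, fun i => equal m hm i⟩
    · obtain ⟨v, hv, h⟩ := exists_vec m hm
      exact ⟨v, hv, by rwa [eig_eq m hm] at h⟩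
    · intro h
      have := congrFun h ⟨0, by omega⟩
      simp [vec] at this
  refine ⟨hfirst, fun γ hγ => ?_⟩
  obtain ⟨m0, hm0⟩ := exists_nat_gt (2 * γ * π)
  set m := m0 + 1 with hm
  obtain ⟨⟨v, hv, h1⟩, h2, h3, -⟩ := hfirst m (by omega)
  refine ⟨2 * m, fun d => 1 / 2 * row m d, ⟨v, hv, ?_⟩, fun x hx => ?_⟩
  · have e : ∀ i, act (fun d => 1 / 2 * row m d) v i = 1 / 2 * act (row m) v i := fun i => by
      unfold act
      rw [mul_sum]
      exact sum_congr rfl fun j _ => by ring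
    simp_rw [e, mul_pow]
    rw [← mul_sum]
    have h4 : 2 * γ ≤ (2 * (m : ℝ) + 1) / π := by
      rw [le_div_iff₀ Real.pi_pos]
      have : (m0 : ℝ) + 1 = m := by rw [hm]; push_cast; ring
      have h5 : (0 : ℝ) ≤ m0 := Nat.cast_nonneg _
      linarith
    have h5 : (2 * γ) ^ 2 ≤ Real.cot (π / (2 * (2 * (m : ℝ) + 1))) ^ 2 :=
      pow_le_pow_left₀ (by positivity) (h4.trans h2) 2
    have h6 : 0 ≤ ∑ i, v i ^ 2 := sum_nonneg fun i _ => sq_nonneg _
    nlinarith [mul_le_mul_of_nonneg_right h5 h6]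
  · obtain ⟨i, hi, h⟩ := h3 x hx
    refine ⟨i, ?_⟩
    have e : act (fun d => 1 / 2 * row m d) x i = 1 / 2 * act (row m) x i := by
      unfold act
      rw [mul_sum]
      exact sum_congr rfl fun j _ => by ring
    rw [e, abs_mul, abs_of_pos (by norm_num : (0 : ℝ) < 1 / 2)]
    have := abs_pos.2 hi
    linarith

end Pool.Agent.Y292.FC
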